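import Pool.Agent.W207.PF.SpecA

/-!
# The transform of a window
-/

set_option autoImplicit false

open Filter Topology Set MeasureTheory
open scoped BigOperators

namespace Pool.Agent.W196.PF

open W207.PF

lemma sn_zero (h : ℝ) : sn h 0 = h := by
  unfold sn
  simp

lemma sn_ne (h : ℝ) {x : ℝ} (hx : x ≠ 0) : sn h x = Real.sin (Real.pi * h * x) / (Real.pi * x) := by
  unfold sn
  have hpi := Real.pi_ne_zero
  have hc : (2 * Real.pi * x) ≠ 0 := by positivity
  have h1 : ∀ y ∈ Set.uIcc (-(h / 2)) (h / 2), HasDerivAt (fun y => Real.sin (2 * Real.pi * y * x) / (2 * Real.pi * x))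
      (Real.cos (2 * Real.pi * y * x)) y := by
    intro y _
    have h2 : HasDerivAt (fun y : ℝ => 2 * Real.pi * y * x) (2 * Real.pi * x) y := by
      have := ((hasDerivAt_id y).const_mul (2 * Real.pi)).mul_const x
      simpa using this
    have h3 := (h2.sin).div_const (2 * Real.pi * x)
    have h4 : Real.cos (2 * Real.pi * y * x) * (2 * Real.pi * x) / (2 * Real.pi * x) =
        Real.cos (2 * Real.pi * y * x) := by field_simp
    rw [h4] at h3
    exact h3
  rw [intervalIntegral.integral_eq_sub_of_hasDerivAt h1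
    (Continuous.intervalIntegrable (by fun_prop) _ _)]
  have e1 : 2 * Real.pi * (h / 2) * x = Real.pi * h * x := by ring
  have e2 : 2 * Real.pi * -(h / 2) * x = -(Real.pi * h * x) := by ring
  rw [e1, e2, Real.sin_neg]
  field_simp
  ring

lemma sn_neg (h x : ℝ) : sn h (-x) = sn h x := by
  unfold sn
  apply intervalIntegral.integral_congr
  intro y _
  simp only
  rw [mul_neg, Real.cos_neg]

lemma sn_le {h : ℝ} (hh : 0 < h) (x : ℝ) : |sn h x| ≤ h := by
  unfold sn
  have h1 := intervalIntegral.norm_integral_le_of_norm_le_const (a := -(h / 2)) (b := h / 2) (C := 1)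
    (f := fun y => Real.cos (2 * Real.pi * y * x)) (fun y _ => by
      rw [Real.norm_eq_abs]
      exact Real.abs_cos_le_one _)
  rw [Real.norm_eq_abs] at h1
  have e : |h / 2 - -(h / 2)| = h := by
    rw [show h / 2 - -(h / 2) = h by ring]
    exact abs_of_pos hh
  rw [e, one_mul] at h1
  exact h1

lemma sn_pi (h x : ℝ) : |sn h x| * (Real.pi * |x|) ≤ 1 := by
  rcases eq_or_ne x 0 with rfl | hx
  · simp
  · rw [sn_ne h hx, abs_div, abs_mul, abs_of_pos Real.pi_pos]
    have hp : 0 < Real.pi * |x| := mul_pos Real.pi_pos (abs_pos.2 hx)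
    rw [div_mul_cancel₀ _ hp.ne']
    exact Real.abs_sin_le_one _

lemma sn_nonneg {h : ℝ} (hh : 0 < h) {x : ℝ} (hx : |x| ≤ 1 / h) : 0 ≤ sn h x := by
  rcases eq_or_ne x 0 with rfl | hx0
  · rw [sn_zero]; exact hh.le
  have key : sn h x = sn h |x| := by
    rcases abs_cases x with ⟨h1, _⟩ | ⟨h1, _⟩
    · rw [h1]
    · rw [h1, sn_neg]
  have hpos : 0 < |x| := abs_pos.2 hx0
  rw [key, sn_ne h hpos.ne']
  apply div_nonneg _ (by positivity)
  apply Real.sin_nonneg_of_nonneg_of_le_pi (by positivity)
  have h2 : h * |x| ≤ 1 := by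
    rw [le_div_iff₀ hh] at hx
    linarith
  have := Real.pi_pos
  nlinarith

/-- **the transform of a window** -/
theorem t_SN : S_SN := by
  intro h hh
  refine ⟨sn_zero h, fun x hx => sn_ne h hx, ?_, sn_neg h, sn_le hh, sn_pi h, ?_, fun x hx => sn_nonneg hh hx⟩
  · unfold sn
    apply intervalIntegral.continuous_parametric_intervalIntegral_of_continuous'
    fun_prop
  · intro x
    have h1 := sn_le hh x
    have h2 := sn_pi h x
    have h3 : |sn h x| * |x| ≤ |sn h x| * (Real.pi * |x|) := by
      apply mul_le_mul_of_nonneg_left _ (abs_nonneg _)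
      have := Real.pi_gt_three
      have h4 := abs_nonneg x
      nlinarith
    nlinarith

end Pool.Agent.W196.PF
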